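import Pool.Agent.H26.BMT.Lower

/-!
# Compactness: from long words with few `3`s to an infinite word
-/

namespace BMT26

open BMTDensity

/-- the finite-stage property -/
def Good (e : ℝ) (n : ℕ) (x : ℕ → Fin 4) : Prop :=
  ¬ Encounters pat (seg x 0 n) ∧ ∀ j ≤ n, ((seg x 0 j).count 3 : ℝ) ≤ (1 / 4 - e) * j

theorem seg_dep {x x' : ℕ → Fin 4} {n : ℕ} (h : ∀ i < n, x i = x' i) {j : ℕ} (hj : j ≤ n) :
    seg x 0 j = seg x' 0 j := by
  unfold seg
  apply List.map_congr_left
  intro t ht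
  rw [Nat.zero_add]
  exact h t (lt_of_lt_of_le (List.mem_range.1 ht) hj)

theorem seg_prefix (x : ℕ → Fin 4) {m n : ℕ} (h : m ≤ n) : seg x 0 m <:+: seg x 0 n := by
  obtain ⟨k, rfl⟩ := Nat.exists_eq_add_of_le h
  exact ⟨[], seg x (0 + m) k, by rw [seg_add]; rfl⟩

theorem Good.anti {e : ℝ} {m n : ℕ} {x : ℕ → Fin 4} (h : m ≤ n) (hg : Good e n x) : Good e m x :=
  ⟨fun he => hg.1 (Encounters.mono (seg_prefix x h) he), fun j hj => hg.2 j (hj.trans h)⟩

theorem Good.dep {e : ℝ} {n : ℕ} {x x' : ℕ → Fin 4} (h : ∀ i < n, x i = x' i) (hg : Good e n x) :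
    Good e n x' := by
  refine ⟨?_, fun j hj => ?_⟩
  · rw [← seg_dep h le_rfl]; exact hg.1
  · rw [← seg_dep h hj]; exact hg.2 j hj

theorem isClosed_dep (n : ℕ) (S : Set (ℕ → Fin 4))
    (h : ∀ x x' : ℕ → Fin 4, (∀ i < n, x i = x' i) → x ∈ S → x' ∈ S) : IsClosed S := by
  rw [← isOpen_compl_iff, isOpen_iff_mem_nhds]
  intro x hx
  have h1 : IsOpen (PiNat.cylinder x n) := PiNat.isOpen_cylinder _ x n
  refine Filter.mem_of_superset (h1.mem_nhds (PiNat.self_mem_cylinder x n)) ?_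
  intro z hz hzS
  exact hx (h z x (fun i hi => hz i hi) hzS)

theorem exists_infinite (e : ℝ) (h : ∀ n, ∃ x, Good e n x) : ∃ x, ∀ n, Good e n x := by
  have := IsCompact.nonempty_iInter_of_sequence_nonempty_isCompact_isClosed
    (fun n => {x | Good e n x}) (fun n x hx => Good.anti (Nat.le_succ n) hx) h
    ((isClosed_dep 0 _ (fun x x' hd hx => Good.dep hd hx)).isCompact)
    (fun n => isClosed_dep n _ (fun x x' hd hx => Good.dep hd hx))
  obtain ⟨x, hx⟩ := this
  exact ⟨x, fun n => Set.mem_iInter.1 hx n⟩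

theorem no_infinite (e : ℝ) (he : 0 < e) (x : ℕ → Fin 4) (hx : ∀ n, Good e n x) : False := by
  obtain ⟨m, hm⟩ : ∃ m : ℕ, (1 / 2 : ℝ) ^ m < e := exists_pow_lt_of_lt_one he (by norm_num)
  obtain ⟨s, hs⟩ := exists_tail x (fun n => (hx n).1) (63 * 2 ^ (m + 1))
  obtain ⟨C, hC⟩ := cnt_lower _ 3 m hs
  have key : ∀ N : ℕ, (e - (1 / 2 : ℝ) ^ m) * N ≤ C + (s : ℝ) / 4 := by
    intro N
    have h1 := hC N
    have h2 : (cnt (fun n => x (s + n)) 3 N : ℝ) ≤ cnt x 3 (s + N) := by
      exact_mod_cast cnt_tail x 3 s N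
    have h3 := (hx (s + N)).2 (s + N) le_rfl
    have h4 : (cnt x 3 (s + N) : ℝ) ≤ (1 / 4 - e) * ((s + N : ℕ) : ℝ) := h3
    push_cast at h4
    have h5 : (N : ℝ) / 2 ^ (m + 2) ≤ (1 / 2 : ℝ) ^ m * N := by
      rw [one_div, inv_pow, pow_add, div_eq_mul_inv, mul_inv]
      have : (0 : ℝ) ≤ (2 ^ m)⁻¹ := by positivity
      have hN : (0 : ℝ) ≤ N := by positivity
      have : (0 : ℝ) ≤ (2 ^ m)⁻¹ * N := by positivity
      norm_num
      nlinarith
    have h6 : (0 : ℝ) ≤ s := by positivity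
    nlinarith
  obtain ⟨N, hN⟩ := exists_nat_gt ((C + (s : ℝ) / 4) / (e - (1 / 2 : ℝ) ^ m))
  have hpos : 0 < e - (1 / 2 : ℝ) ^ m := by linarith
  rw [div_lt_iff₀ hpos] at hN
  have := key N
  nlinarith

theorem range_map_getD (w : List (Fin 4)) (i j : ℕ) (h : i + j ≤ w.length) :
    (List.range j).map (fun t => (w[i + t]?).getD 0) = (w.drop i).take j := by
  apply List.ext_getElem
  · simp; omega
  · intro t h1 h2
    simp at h1
    have : i + t < w.length := by omega
    simp [this]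

theorem exists_good (e : ℝ) (he : 0 < e) (k : ℕ) (w : List (Fin 4)) (hw : w ∈ F k)
    (hc : (w.count 3 : ℝ) < (1 / 4 - 2 * e) * k) (n : ℕ) (hn : (n : ℝ) ≤ 4 * e * k) :
    ∃ x, Good e n x := by
  obtain ⟨hwl, hwa⟩ := hw
  set S : ℕ → ℝ := fun j => ((w.take j).count 3 : ℝ) - (1 / 4 - e) * j with hS
  obtain ⟨i, hi, himax⟩ := Finset.exists_max_image (Finset.range (k + 1)) S ⟨0, by simp⟩
  have hik : i ≤ k := by
    have := Finset.mem_range.1 hi; omega
  have h0 : S 0 ≤ S i := himax 0 (by simp)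
  have hS0 : S 0 = 0 := by simp [hS]
  have hSk : S k < - (e * k) := by
    have : w.take k = w := by rw [← hwl, List.take_length]
    simp only [hS, this]
    linarith
  have hmono : ((w.take i).count 3 : ℝ) ≤ ((w.take k).count 3 : ℝ) := by
    have : (w.take i).count 3 ≤ (w.take k).count 3 := by
      apply List.Sublist.count_le
      exact List.take_sublist_take_left hik
    exact_mod_cast this
  have hkin : (n : ℝ) ≤ (k : ℝ) - i := by
    have e1 : S i = ((w.take i).count 3 : ℝ) - (1 / 4 - e) * i := rfl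
    have e2 : S k = ((w.take k).count 3 : ℝ) - (1 / 4 - e) * k := rfl
    have h1 : (i : ℝ) ≤ k := by exact_mod_cast hik
    nlinarith
  have hin : i + n ≤ k := by
    have : (i : ℝ) + n ≤ k := by linarith
    exact_mod_cast this
  set x : ℕ → Fin 4 := fun t => (w[i + t]?).getD 0 with hx
  have hseg : ∀ j ≤ n, seg x 0 j = (w.drop i).take j := by
    intro j hj
    unfold seg
    simp only [Nat.zero_add, hx]
    exact range_map_getD w i j (by omega)
  refine ⟨x, ?_, ?_⟩
  · intro henc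
    rw [hseg n le_rfl] at henc
    refine hwa (Encounters.mono ?_ henc)
    exact ((List.take_prefix _ _).isInfix).trans (List.drop_suffix _ _).isInfix
  · intro j hj
    rw [hseg j hj]
    have h1 := himax (i + j) (by rw [Finset.mem_range]; omega)
    simp only [hS] at h1
    rw [List.take_add, List.count_append] at h1
    push_cast at h1
    nlinarith

/-- For every `e > 0`, all long enough words avoiding the pattern have density of `3` at least
`1/4 - 2 e`. -/
theorem eventually_lower (e : ℝ) (he : 0 < e) :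
    ∃ k0 : ℕ, ∀ k ≥ k0, ∀ w ∈ F k, (1 / 4 - 2 * e) * k ≤ (w.count 3 : ℝ) := by
  by_contra hcon
  push Not at hcon
  have : ∀ n, ∃ x, Good e n x := by
    intro n
    obtain ⟨k1, hk1⟩ := exists_nat_ge ((n : ℝ) / (4 * e))
    obtain ⟨k, hk, w, hw, hwc⟩ := hcon k1
    refine exists_good e he k w hw hwc n ?_
    have h1 : ((k1 : ℕ) : ℝ) ≤ k := by exact_mod_cast hk
    have h2 := hk1.trans h1
    rw [div_le_iff₀ (by positivity)] at h2
    linarith
  obtain ⟨x, hx⟩ := exists_infinite e this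
  exact no_infinite e he x hx

end BMT26
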