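import Pool.Agent.H26.BMT.Structure

/-!
# Letter counts in formula-avoiding infinite words over four letters
-/

namespace BMT26

/-- the factor of `x` of length `l` at position `p` -/
def seg (x : ℕ → Fin 4) (p l : ℕ) : List (Fin 4) := (List.range l).map (fun t => x (p + t))

theorem seg_length (x : ℕ → Fin 4) (p l : ℕ) : (seg x p l).length = l := by simp [seg]

theorem seg_add (x : ℕ → Fin 4) (p l m : ℕ) : seg x p (l + m) = seg x p l ++ seg x (p + l) m := by
  unfold seg
  rw [List.range_add, List.map_append, List.map_map]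
  congr 1
  apply List.map_congr_left
  intro t _
  simp [Nat.add_assoc]

theorem seg_congr {x : ℕ → Fin 4} {p q l : ℕ} (h : ∀ t < l, x (p + t) = x (q + t)) :
    seg x p l = seg x q l := by
  unfold seg
  apply List.map_congr_left
  intro t ht
  exact h t (List.mem_range.1 ht)

theorem seg_zero (x : ℕ → Fin 4) (p : ℕ) : seg x p 0 = [] := rfl

theorem seg_succ (x : ℕ → Fin 4) (p l : ℕ) : seg x p (l + 1) = seg x p l ++ [x (p + l)] := by
  rw [seg_add]; rfl

/-- number of occurrences of the letter `a` among the first `N` letters of `x` -/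
def cnt (x : ℕ → Fin 4) (a : Fin 4) (N : ℕ) : ℕ := (seg x 0 N).count a

theorem cnt_succ (x : ℕ → Fin 4) (a : Fin 4) (N : ℕ) :
    cnt x a (N + 1) = cnt x a N + (if x N = a then 1 else 0) := by
  unfold cnt
  rw [seg_succ, List.count_append, List.count_singleton, Nat.zero_add]
  congr 1
  by_cases h : x N = a <;> simp [h]

theorem cnt_mono (x : ℕ → Fin 4) (a : Fin 4) : Monotone (cnt x a) := by
  refine monotone_nat_of_le_succ (fun N => ?_)
  rw [cnt_succ]; omega

theorem cnt_tail (x : ℕ → Fin 4) (a : Fin 4) (s N : ℕ) :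
    cnt (fun n => x (s + n)) a N ≤ cnt x a (s + N) := by
  induction N with
  | zero => simp [cnt, seg]
  | succ N ih =>
    rw [cnt_succ, ← Nat.add_assoc, cnt_succ]; omega

theorem fin4_third (a b c x y : Fin 4) (hab : a ≠ b) (hca : c ≠ a) (hcb : c ≠ b) (h1 : x ≠ a)
    (h2 : x ≠ b) (h3 : x ≠ c) (h4 : y ≠ a) (h5 : y ≠ b) (h6 : y ≠ c) : x = y := by
  omega

theorem alt_fin (y : ℕ → Fin 4) (s : ℕ)
    (h : ∀ n, y (s + 2 * n) = y (s + 2 * n + 4)) (n : ℕ) :
    y (s + 4 * n) = y s ∧ y (s + 4 * n + 2) = y (s + 2) := by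
  induction n with
  | zero => exact ⟨rfl, rfl⟩
  | succ n ih =>
    constructor
    · rw [← ih.1]
      have := h (2 * n)
      rw [show s + 4 * (n + 1) = s + 2 * (2 * n) + 4 by ring, ← this]; congr 1; omega
    · rw [← ih.2]
      have := h (2 * n + 1)
      rw [show s + 4 * (n + 1) + 2 = s + 2 * (2 * n + 1) + 4 by ring, ← this]; congr 1; omega

theorem cnt_caseA (y : ℕ → Fin 4) (s : ℕ) (a : Fin 4)
    (h : ∀ n, y (s + 2 * n) = y (s + 2 * n + 4)) (ha : a = y s ∨ a = y (s + 2)) (M : ℕ) :
    M ≤ cnt y a (s + 4 * M) := by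
  induction M with
  | zero => omega
  | succ M ih =>
    have h1 := alt_fin y s h M
    have e : cnt y a (s + 4 * (M + 1)) = cnt y a (s + 4 * M) + (if y (s + 4 * M) = a then 1 else 0)
        + (if y (s + 4 * M + 1) = a then 1 else 0) + (if y (s + 4 * M + 2) = a then 1 else 0)
        + (if y (s + 4 * M + 3) = a then 1 else 0) := by
      rw [show s + 4 * (M + 1) = s + 4 * M + 1 + 1 + 1 + 1 by ring, cnt_succ, cnt_succ, cnt_succ,
        cnt_succ]
    rw [e, h1.1, h1.2]
    rcases ha with ha | ha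
    · rw [if_pos ha.symm]; omega
    · rw [if_pos (c := y (s + 2) = a) ha.symm]; omega

theorem cnt_caseB (y : ℕ → Fin 4) (s : ℕ) (a : Fin 4) (M : ℕ) :
    (M : ℤ) + D (fun n => decide (y (s + 2 * n + 1) = a)) M ≤ 2 * (cnt y a (s + 2 * M) : ℤ) := by
  induction M with
  | zero => simp [D]
  | succ M ih =>
    rw [show s + 2 * (M + 1) = s + 2 * M + 1 + 1 by ring, cnt_succ, cnt_succ, D_succ]
    by_cases h : y (s + 2 * M + 1) = a
    · simp only [h, decide_true, if_true]
      push_cast
      split <;> omega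
    · simp only [h, decide_false, if_false]
      push_cast
      split <;> simp <;> omega

theorem cnt_lower (y : ℕ → Fin 4) (a : Fin 4) (m : ℕ) (hocc : ¬ Occ y (63 * 2 ^ (m + 1))) :
    ∃ C : ℝ, ∀ N : ℕ, (N : ℝ) / 4 - N / 2 ^ (m + 2) - C ≤ cnt y a N := by
  have h63 : 63 ≤ 63 * 2 ^ (m + 1) := by
    have : 1 ≤ 2 ^ (m + 1) := Nat.one_le_two_pow
    omega
  obtain ⟨s, hs⟩ := structure_thm y (fun h => hocc (h.mono h63))
  by_cases ha : a = y s ∨ a = y (s + 2)
  · refine ⟨s + 1, fun N => ?_⟩
    have h0 : (0 : ℝ) ≤ N / 2 ^ (m + 2) := by positivity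
    by_cases hN : N < s
    · have h2 : (N : ℝ) ≤ s := by exact_mod_cast hN.le
      have h3 : (0 : ℝ) ≤ cnt y a N := by positivity
      have h4 : (0 : ℝ) ≤ N := by positivity
      linarith
    · have h1 := cnt_caseA y s a (fun n => (hs n).2.1) ha ((N - s) / 4)
      have h2 : cnt y a (s + 4 * ((N - s) / 4)) ≤ cnt y a N := cnt_mono y a (by omega)
      have h3 : N ≤ s + 4 * cnt y a N + 3 := by omega
      have h4 : (N : ℝ) ≤ s + 4 * cnt y a N + 3 := by exact_mod_cast h3
      have h5 : (0 : ℝ) ≤ s := by positivity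
      linarith
  · push Not at ha
    obtain ⟨ha1, ha2⟩ := ha
    set t : ℕ → Bool := fun n => decide (y (s + 2 * n + 1) = a) with ht
    have hss : y s ≠ y (s + 2) := by simpa using (hs 0).1
    have hpar : ∀ n, y (s + 2 * n) = if n % 2 = 0 then y s else y (s + 2) := by
      intro n
      have h1 := alt_fin y s (fun n => (hs n).2.1) (n / 2)
      rcases Nat.mod_two_eq_zero_or_one n with hn | hn
      · rw [hn, if_pos rfl, ← h1.1]; congr 1; omega
      · rw [hn, if_neg (by norm_num), ← h1.2]; congr 1; omega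
    have hY : ¬ Occ (Y t) (63 * 2 ^ m) := by
      intro ho
      refine hocc ?_
      rw [show 63 * 2 ^ (m + 1) = 2 * (63 * 2 ^ m) by ring]
      refine Occ.double (s := s) ?_ ho
      intro i j hij
      rw [Y_eq_iff] at hij
      refine ⟨by rw [hpar i, hpar j, hij.1], ?_⟩
      have h2 := hij.2
      simp only [ht] at h2
      by_cases hi : y (s + 2 * i + 1) = a
      · have hj : y (s + 2 * j + 1) = a := by
          simpa [hi] using h2
        rw [hi, hj]
      · have hj : ¬ y (s + 2 * j + 1) = a := by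
          simpa [hi] using h2
        exact fin4_third (y s) (y (s + 2)) a _ _ hss ha1 ha2 (hs i).2.2.1 (hs i).2.2.2 hi
          (hs j).2.2.1 (hs j).2.2.2 hj
    obtain ⟨C, hC⟩ := disc m t hY
    have hC0 : 0 ≤ C := by
      have := (abs_nonneg _).trans (hC 0)
      simpa using this
    refine ⟨s + 1 + C, fun N => ?_⟩
    have h0 : (0 : ℝ) ≤ N / 2 ^ (m + 2) := by positivity
    by_cases hN : N < s
    · have h2 : (N : ℝ) ≤ s := by exact_mod_cast hN.le
      have h3 : (0 : ℝ) ≤ cnt y a N := by positivity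
      have h4 : (0 : ℝ) ≤ N := by positivity
      linarith
    · set M := (N - s) / 2 with hM
      have h1 := cnt_caseB y s a M
      have h2 : cnt y a (s + 2 * M) ≤ cnt y a N := cnt_mono y a (by omega)
      have h3 : (M : ℝ) + (D t M : ℝ) ≤ 2 * (cnt y a (s + 2 * M) : ℝ) := by exact_mod_cast h1
      have h4 : (cnt y a (s + 2 * M) : ℝ) ≤ cnt y a N := by exact_mod_cast h2
      have h5 := (abs_le.1 (hC M)).1
      have h6 : N ≤ s + 2 * M + 1 := by omega
      have h7 : (N : ℝ) ≤ s + 2 * M + 1 := by exact_mod_cast h6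
      have h8 : (M : ℝ) / 2 ^ m ≤ 2 * (N / 2 ^ (m + 2)) := by
        have : (2 * M : ℝ) ≤ N := by
          have : 2 * M ≤ N := by omega
          exact_mod_cast this
        rw [pow_add, mul_div_assoc', div_le_div_iff₀ (by positivity) (by positivity)]
        have h2m : (0:ℝ) < 2 ^ m := by positivity
        nlinarith
      have h9 : (0 : ℝ) ≤ s := by positivity
      linarith

end BMT26
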