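import Mathlib

/-!
# The Baker–McNulty–Taylor pattern and the minimal density of a letter
-/

namespace BMTDensity

/-- the seven variables -/
inductive Var where
  | a | b | c | X | Y | Z | T

/-- the pattern `abXbcYcaZbaTac` -/
def pat : List Var :=
  [.a, .b, .X, .b, .c, .Y, .c, .a, .Z, .b, .a, .T, .a, .c]

/-- `w` encounters `p`: some non-erasing morphism maps `p` to a factor of `w`. -/
def Encounters (p : List Var) (w : List (Fin 4)) : Prop :=
  ∃ h : Var → List (Fin 4), (∀ v, h v ≠ []) ∧ p.flatMap h <:+: w

/-- the words of length `k` over `{0,1,2,3}` which avoid the pattern -/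
def F (k : ℕ) : Set (List (Fin 4)) := {w | w.length = k ∧ ¬ Encounters pat w}

/-- the minimum of `|w|_3` over the words `w` of length `k` avoiding the pattern -/
noncomputable def minCount (k : ℕ) : ℕ := sInf ((fun w : List (Fin 4) => w.count 3) '' F k)

/-- the minimal density of the letter `3` -/
noncomputable def rho : ℝ := Filter.liminf (fun k : ℕ => (minCount k : ℝ) / k) Filter.atTop

end BMTDensity
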