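import Pool.Agent.H26.BMT.Defs
import Pool.Agent.H26.BMT.Count

/-!
# Lower bound: pattern-avoiding words have density of each letter at least `1/4`
-/

namespace BMT26

open BMTDensity

theorem Encounters.mono {p : List Var} {u w : List (Fin 4)} (h : u <:+: w) (he : Encounters p u) :
    Encounters p w := by
  obtain ⟨f, h1, h2⟩ := he
  exact ⟨f, h1, h2.trans h⟩

/-- every factor of length `K` occurring far enough occurs arbitrarily far -/
theorem exists_rec (x : ℕ → Fin 4) (K : ℕ) :
    ∃ s, ∀ i ≥ s, ∀ N, ∃ j ≥ N, ∀ t < K, x (j + t) = x (i + t) := by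
  have h : ∀ u : Fin K → Fin 4, ∃ s, (∀ N, ∃ j ≥ N, ∀ t : Fin K, x (j + t) = u t) ∨
      (∀ i ≥ s, ¬ ∀ t : Fin K, x (i + t) = u t) := by
    intro u
    by_cases hu : ∀ N, ∃ j ≥ N, ∀ t : Fin K, x (j + t) = u t
    · exact ⟨0, Or.inl hu⟩
    · push Not at hu
      obtain ⟨N, hN⟩ := hu
      refine ⟨N, Or.inr ?_⟩
      intro i hi hh
      obtain ⟨t, ht⟩ := hN i hi
      exact ht (hh t)
  choose s hs using h
  refine ⟨Finset.univ.sup s, ?_⟩
  intro i hi N
  set u : Fin K → Fin 4 := fun t => x (i + t) with hu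
  rcases hs u with h1 | h1
  · obtain ⟨j, hj, hj2⟩ := h1 N
    exact ⟨j, hj, fun t ht => hj2 ⟨t, ht⟩⟩
  · exact absurd (fun t => rfl) (h1 i ((Finset.le_sup (Finset.mem_univ u)).trans hi))

theorem seg_ne_nil (x : ℕ → Fin 4) (p l : ℕ) (hl : 0 < l) : seg x p l ≠ [] := by
  intro h
  have := congrArg List.length h
  rw [seg_length] at this
  simp at this
  omega

theorem exists_tail (x : ℕ → Fin 4) (hx : ∀ n, ¬ Encounters pat (seg x 0 n)) (K : ℕ) :
    ∃ s, ¬ Occ (fun n => x (s + n)) K := by
  obtain ⟨s, hs⟩ := exists_rec x (2 * K)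
  refine ⟨s, ?_⟩
  rintro ⟨la, lb, lc, p1, p2, p3, p4, p5, h1, h2, h3, h4, h5, h6, e1, e2, e3, e4, e5, e6, e7⟩
  beta_reduce at e1 e2 e3 e4 e5 e6 e7
  -- choose ordered occurrences
  have step : ∀ p q, ∃ g, 0 < g ∧ ∀ t < 2 * K, x (q + g + t) = x (s + p + t) := by
    intro p q
    obtain ⟨j, hj, hj2⟩ := hs (s + p) (by omega) (q + 1)
    refine ⟨j - q, by omega, ?_⟩
    intro t ht
    rw [← hj2 t ht]; congr 1; omega
  set A := seg x (s + p1) la with hA
  set B := seg x (s + p1 + la) lb with hB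
  set C := seg x (s + p2 + lb) lc with hC
  set q1 := s + p1 with hq1
  obtain ⟨g1, hg1, E2⟩ := step p2 (q1 + la + lb)
  obtain ⟨g2, hg2, E3⟩ := step p3 (q1 + la + lb + g1 + lb + lc)
  obtain ⟨g3, hg3, E4⟩ := step p4 (q1 + la + lb + g1 + lb + lc + g2 + lc + la)
  obtain ⟨g4, hg4, E5⟩ := step p5 (q1 + la + lb + g1 + lb + lc + g2 + lc + la + g3 + lb + la)
  -- the pieces
  have F1 : seg x (q1 + la + lb + g1) lb = B := by
    refine seg_congr (fun t ht => ?_)
    rw [E2 t (by omega)]
    have := e1 t ht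
    rw [show s + p2 + t = s + (p2 + t) by ring, this]; congr 1; omega
  have F2 : seg x (q1 + la + lb + g1 + lb) lc = C := by
    refine seg_congr (fun t ht => ?_)
    have := E2 (lb + t) (by omega)
    rw [show q1 + la + lb + g1 + lb + t = q1 + la + lb + g1 + (lb + t) by ring, this]
    congr 1; omega
  have F3 : seg x (q1 + la + lb + g1 + lb + lc + g2) lc = C := by
    refine seg_congr (fun t ht => ?_)
    rw [E3 t (by omega)]
    have := e2 t ht
    rw [show s + p3 + t = s + (p3 + t) by ring, this]; congr 1; omega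
  have F4 : seg x (q1 + la + lb + g1 + lb + lc + g2 + lc) la = A := by
    refine seg_congr (fun t ht => ?_)
    have := E3 (lc + t) (by omega)
    rw [show q1 + la + lb + g1 + lb + lc + g2 + lc + t = q1 + la + lb + g1 + lb + lc + g2 + (lc + t) by
      ring, this]
    have := e3 t ht
    rw [show s + p3 + (lc + t) = s + (p3 + lc + t) by ring, this]; congr 1; omega
  have F5 : seg x (q1 + la + lb + g1 + lb + lc + g2 + lc + la + g3) lb = B := by
    refine seg_congr (fun t ht => ?_)
    rw [E4 t (by omega)]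
    have := e4 t ht
    rw [show s + p4 + t = s + (p4 + t) by ring, this]; congr 1; omega
  have F6 : seg x (q1 + la + lb + g1 + lb + lc + g2 + lc + la + g3 + lb) la = A := by
    refine seg_congr (fun t ht => ?_)
    have := E4 (lb + t) (by omega)
    rw [show q1 + la + lb + g1 + lb + lc + g2 + lc + la + g3 + lb + t
      = q1 + la + lb + g1 + lb + lc + g2 + lc + la + g3 + (lb + t) by ring, this]
    have := e5 t ht
    rw [show s + p4 + (lb + t) = s + (p4 + lb + t) by ring, this]; congr 1; omega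
  have F7 : seg x (q1 + la + lb + g1 + lb + lc + g2 + lc + la + g3 + lb + la + g4) la = A := by
    refine seg_congr (fun t ht => ?_)
    rw [E5 t (by omega)]
    have := e6 t ht
    rw [show s + p5 + t = s + (p5 + t) by ring, this]; congr 1; omega
  have F8 : seg x (q1 + la + lb + g1 + lb + lc + g2 + lc + la + g3 + lb + la + g4 + la) lc = C := by
    refine seg_congr (fun t ht => ?_)
    have := E5 (la + t) (by omega)
    rw [show q1 + la + lb + g1 + lb + lc + g2 + lc + la + g3 + lb + la + g4 + la + t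
      = q1 + la + lb + g1 + lb + lc + g2 + lc + la + g3 + lb + la + g4 + (la + t) by ring, this]
    have := e7 t ht
    rw [show s + p5 + (la + t) = s + (p5 + la + t) by ring, this]; congr 1; omega
  refine hx (q1 + (la + (lb + (g1 + (lb + (lc + (g2 + (lc + (la + (g3 + (lb + (la + (g4 +
        (la + lc)))))))))))))) ⟨fun v => match v with
    | .a => A | .b => B | .c => C
    | .X => seg x (q1 + la + lb) g1
    | .Y => seg x (q1 + la + lb + g1 + lb + lc) g2
    | .Z => seg x (q1 + la + lb + g1 + lb + lc + g2 + lc + la) g3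
    | .T => seg x (q1 + la + lb + g1 + lb + lc + g2 + lc + la + g3 + lb + la) g4, ?_, ?_⟩
  · intro v
    cases v
    · exact seg_ne_nil _ _ _ h1
    · exact seg_ne_nil _ _ _ h2
    · exact seg_ne_nil _ _ _ h3
    · exact seg_ne_nil _ _ _ hg1
    · exact seg_ne_nil _ _ _ hg2
    · exact seg_ne_nil _ _ _ hg3
    · exact seg_ne_nil _ _ _ hg4
  · refine ⟨seg x 0 q1, [], ?_⟩
    rw [List.append_nil]
    rw [seg_add x 0 q1, Nat.zero_add]
    congr 1
    simp only [pat, List.flatMap_cons, List.flatMap_nil, List.append_nil]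
    simp only [seg_add]
    rw [F1, F2, F3, F4, F5, F6, F7, F8]

end BMT26
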