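import Pool.Agent.H26.BMT.Data

/-!
# Structure of formula-avoiding infinite words over four letters
-/

namespace BMT26

theorem Occ.of_comp {α β : Type*} {y : ℕ → α} {f : α → β} (hf : Function.Injective f) {K : ℕ}
    (h : Occ (fun i => f (y i)) K) : Occ y K := by
  obtain ⟨la, lb, lc, p1, p2, p3, p4, p5, h1, h2, h3, h4, h5, h6, e1, e2, e3, e4, e5, e6, e7⟩ := h
  exact ⟨la, lb, lc, p1, p2, p3, p4, p5, h1, h2, h3, h4, h5, h6,
    fun t ht => hf (e1 t ht), fun t ht => hf (e2 t ht), fun t ht => hf (e3 t ht),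
    fun t ht => hf (e4 t ht), fun t ht => hf (e5 t ht), fun t ht => hf (e6 t ht),
    fun t ht => hf (e7 t ht)⟩

theorem PC.of_comp {α β : Type*} {y : ℕ → α} {f : α → β} (hf : Function.Injective f) {p c : ℕ}
    (h : PC (fun i => f (y i)) p c) : PC y p c := by
  intro i hi
  obtain ⟨h1, h2⟩ := h i hi
  refine ⟨fun hc => ⟨fun h9 he => (h1 hc).1 h9 (congrArg f he), fun h9 => hf ((h1 hc).2 h9)⟩,
    fun hc => ⟨fun he => (h2 hc).1 (congrArg f he), fun he => (h2 hc).2 (congrArg f he)⟩⟩

/-- squares give an occurrence of the formula -/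
theorem Occ.of_square {α : Type*} {y : ℕ → α} {K p l : ℕ} (hl : 0 < l) (hK : l ≤ K)
    (h : ∀ t < l, y (p + t) = y (p + l + t)) : Occ y K :=
  ⟨l, l, l, p, p, p, p, p, hl, hl, hl, hK, hK, hK, h, h, fun t ht => (h t ht).symm, h,
    fun t ht => (h t ht).symm, fun _ _ => rfl, fun _ _ => rfl⟩

theorem exists_perm (a b : Fin 4) (hab : a ≠ b) : ∃ σ : Equiv.Perm (Fin 4), σ a = 0 ∧ σ b = 1 := by
  refine ⟨(Equiv.swap a 0).trans (Equiv.swap (Equiv.swap a 0 b) 1), ?_, ?_⟩
  · have h1 : Equiv.swap a 0 b ≠ 0 := by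
      intro h
      have : Equiv.swap a 0 b = Equiv.swap a 0 a := by rw [h, Equiv.swap_apply_left]
      exact hab ((Equiv.swap a 0).injective this).symm
    rw [Equiv.trans_apply, Equiv.swap_apply_left]
    exact Equiv.swap_apply_of_ne_of_ne h1.symm (by decide)
  · rw [Equiv.trans_apply, Equiv.swap_apply_left]

theorem window (y : ℕ → Fin 4) (hocc : ¬ Occ y 63) (p : ℕ) (hp : 40 ≤ p) : PC y p 0 ∨ PC y p 1 := by
  have hne : y p ≠ y (p + 1) := by
    intro h
    refine hocc (Occ.of_square (p := p) (l := 1) one_pos (by norm_num) ?_)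
    intro t ht
    have : t = 0 := by omega
    subst this
    exact h
  obtain ⟨σ, h0, h1⟩ := exists_perm _ _ hne
  set z : ℕ → ℕ := fun i => ((σ (y i) : Fin 4) : ℕ) with hz
  have hinj : Function.Injective (fun a : Fin 4 => ((σ a : Fin 4) : ℕ)) := by
    intro a b hab
    exact σ.injective (Fin.val_injective hab)
  have key := chk_sound z (fun i => (σ (y i)).isLt) p hp t112 4 2 40 p chk_t112 (by norm_num) le_rfl
    rfl (by
      intro i hi
      interval_cases i
      · show ((σ (y (p + 0)) : Fin 4) : ℕ) = dg 4 0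
        rw [Nat.add_zero, h0]; rfl
      · show ((σ (y (p + 1)) : Fin 4) : ℕ) = dg 4 1
        rw [h1]; rfl)
  rcases key with (h | h) | h
  · exact Or.inl (PC.of_comp hinj h)
  · exact Or.inr (PC.of_comp hinj h)
  · exact absurd (Occ.of_comp hinj h) hocc

theorem step_PC (y : ℕ → Fin 4) (hocc : ¬ Occ y 63) (p c : ℕ) (hc : c < 2) (hp : 40 ≤ p)
    (h : PC y p c) : PC y (p + 1) (1 - c) := by
  have hw := window y hocc (p + 1) (by omega)
  by_contra hne
  have h2 : PC y (p + 1) c := by
    interval_cases c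
    · rcases hw with hw | hw
      · exact hw
      · exact absurd hw hne
    · rcases hw with hw | hw
      · exact absurd hw hne
      · exact hw
  refine hocc (Occ.of_square (p := p + 1) (l := 4) (by norm_num) (by norm_num) ?_)
  intro t ht
  by_cases hpar : (t + 1) % 2 = c
  · have := ((h (t + 1) (by omega)).1 hpar).2 (by omega)
    rw [show p + 1 + t = p + (t + 1) by ring, this]
    congr 1; omega
  · have := ((h2 t (by omega)).1 (by omega)).2 (by omega)
    rw [this]
    congr 1; omega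

theorem all_PC (y : ℕ → Fin 4) (hocc : ¬ Occ y 63) :
    ∃ e < 2, ∀ n, PC y (40 + n) ((n + e) % 2) := by
  rcases window y hocc 40 le_rfl with h | h
  · refine ⟨0, by norm_num, ?_⟩
    intro n
    induction n with
    | zero => exact h
    | succ n ih =>
      have := step_PC y hocc (40 + n) ((n + 0) % 2) (Nat.mod_lt _ (by norm_num)) (by omega) ih
      rw [show (n + 1 + 0) % 2 = 1 - (n + 0) % 2 by omega]
      exact this
  · refine ⟨1, by norm_num, ?_⟩
    intro n
    induction n with
    | zero => exact h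
    | succ n ih =>
      have := step_PC y hocc (40 + n) ((n + 1) % 2) (Nat.mod_lt _ (by norm_num)) (by omega) ih
      rw [show (n + 1 + 1) % 2 = 1 - (n + 1) % 2 by omega]
      exact this

/-- structure theorem: from some position on, every second letter alternates between two letters and
the other letters are different from these two. -/
theorem structure_thm (y : ℕ → Fin 4) (hocc : ¬ Occ y 63) :
    ∃ s, ∀ n, y (s + 2 * n) ≠ y (s + 2 * n + 2) ∧ y (s + 2 * n) = y (s + 2 * n + 4) ∧
      y (s + 2 * n + 1) ≠ y s ∧ y (s + 2 * n + 1) ≠ y (s + 2) := by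
  obtain ⟨e, he, h⟩ := all_PC y hocc
  have base : ∀ n, y (40 + e + 2 * n) ≠ y (40 + e + 2 * n + 2) ∧
      y (40 + e + 2 * n) = y (40 + e + 2 * n + 4) ∧
      y (40 + e + 2 * n + 1) ≠ y (40 + e + 2 * n) ∧ y (40 + e + 2 * n + 1) ≠ y (40 + e + 2 * n + 2) := by
    intro n
    have h1 := h (e + 2 * n)
    rw [show (e + 2 * n + e) % 2 = 0 by omega, show 40 + (e + 2 * n) = 40 + e + 2 * n by ring] at h1
    have h2 := (h1 0 (by norm_num)).1 rfl
    have h3 := (h1 1 (by norm_num)).2 (by norm_num)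
    exact ⟨h2.1 (by norm_num), h2.2 (by norm_num), h3.1, h3.2⟩
  have per : ∀ n, (y (40 + e + 2 * n) = y (40 + e) ∧ y (40 + e + 2 * n + 2) = y (40 + e + 2)) ∨
      (y (40 + e + 2 * n) = y (40 + e + 2) ∧ y (40 + e + 2 * n + 2) = y (40 + e)) := by
    intro n
    induction n with
    | zero => left; exact ⟨rfl, rfl⟩
    | succ n ih =>
      have h4 := (base n).2.1
      rcases ih with ⟨i1, i2⟩ | ⟨i1, i2⟩
      · right
        constructor
        · rw [← i2]; congr 1
        · rw [← i1, h4]; congr 1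
      · left
        constructor
        · rw [← i2]; congr 1
        · rw [← i1, h4]; congr 1
  refine ⟨40 + e, fun n => ⟨(base n).1, (base n).2.1, ?_⟩⟩
  obtain ⟨_, _, h3, h4⟩ := base n
  rcases per n with ⟨i1, i2⟩ | ⟨i1, i2⟩
  · rw [i1] at h3; rw [i2] at h4; exact ⟨h3, h4⟩
  · rw [i1] at h3; rw [i2] at h4; exact ⟨h4, h3⟩

/-- the word over four letters coding `(parity of n, t n)` -/
def Y (t : ℕ → Bool) (n : ℕ) : Fin 4 :=
  match n % 2, t n with
  | 0, false => 0
  | 0, true => 1
  | _, false => 2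
  | _, true => 3

theorem Y_eq_iff (t u : ℕ → Bool) (i j : ℕ) : Y t i = Y u j ↔ (i % 2 = j % 2 ∧ t i = u j) := by
  unfold Y
  rcases Nat.mod_two_eq_zero_or_one i with hi | hi <;> rcases Nat.mod_two_eq_zero_or_one j with hj | hj <;>
    rw [hi, hj] <;> cases t i <;> cases u j <;> decide

/-- pulling back an occurrence along a 2-uniform coding -/
theorem Occ.double {α β : Type*} {y : ℕ → α} {z : ℕ → β} {s K : ℕ}
    (h : ∀ i j, z i = z j → y (s + 2 * i) = y (s + 2 * j) ∧ y (s + 2 * i + 1) = y (s + 2 * j + 1))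
    (ho : Occ z K) : Occ y (2 * K) := by
  obtain ⟨la, lb, lc, p1, p2, p3, p4, p5, h1, h2, h3, h4, h5, h6, e1, e2, e3, e4, e5, e6, e7⟩ := ho
  have key : ∀ a b l : ℕ, (∀ t < l, z (a + t) = z (b + t)) →
      ∀ t < 2 * l, y (s + 2 * a + t) = y (s + 2 * b + t) := by
    intro a b l hab t ht
    have hh := h _ _ (hab (t / 2) (by omega))
    rcases Nat.mod_two_eq_zero_or_one t with ht2 | ht2
    · have := hh.1
      rw [show s + 2 * a + t = s + 2 * (a + t / 2) by omega, this]; congr 1; omega
    · have := hh.2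
      rw [show s + 2 * a + t = s + 2 * (a + t / 2) + 1 by omega, this]; congr 1; omega
  refine ⟨2 * la, 2 * lb, 2 * lc, s + 2 * p1, s + 2 * p2, s + 2 * p3, s + 2 * p4, s + 2 * p5,
    by omega, by omega, by omega, by omega, by omega, by omega, ?_, ?_, ?_, ?_, ?_, ?_, ?_⟩
  · intro t ht
    have := key p2 (p1 + la) lb e1 t ht
    rw [this]; congr 1; omega
  · intro t ht
    have := key p3 (p2 + lb) lc e2 t ht
    rw [this]; congr 1; omega
  · intro t ht
    have := key (p3 + lc) p1 la e3 t ht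
    rw [← this]; congr 1; omega
  · intro t ht
    have := key p4 (p1 + la) lb e4 t ht
    rw [this]; congr 1; omega
  · intro t ht
    have := key (p4 + lb) p1 la e5 t ht
    rw [← this]; congr 1; omega
  · intro t ht
    exact key p5 p1 la e6 t ht
  · intro t ht
    have := key (p5 + la) (p2 + lb) lc e7 t ht
    rw [show s + 2 * p5 + 2 * la + t = s + 2 * (p5 + la) + t by ring, this]; congr 1; omega

theorem Occ.mono {α : Type*} {y : ℕ → α} {K L : ℕ} (h : K ≤ L) (ho : Occ y K) : Occ y L := by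
  obtain ⟨la, lb, lc, p1, p2, p3, p4, p5, h1, h2, h3, h4, h5, h6, e⟩ := ho
  exact ⟨la, lb, lc, p1, p2, p3, p4, p5, h1, h2, h3, h4.trans h, h5.trans h, h6.trans h, e⟩

/-- alternation of a boolean sequence -/
theorem alt_bool (a : ℕ → Bool) (h : ∀ n, a n ≠ a (n + 1)) (i j : ℕ) (hij : i % 2 = j % 2) :
    a i = a j := by
  have key : ∀ n, a n = (if n % 2 = 0 then a 0 else !(a 0)) := by
    intro n
    induction n with
    | zero => simp
    | succ n ih =>
      have h1 := h n
      rcases Nat.mod_two_eq_zero_or_one n with hn | hn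
      · rw [hn] at ih
        rw [show (n + 1) % 2 = 1 by omega]
        simp only [if_true, one_ne_zero, if_false] at ih ⊢
        rw [ih] at h1
        revert h1; cases a 0 <;> cases a (n + 1) <;> simp
      · rw [hn] at ih
        rw [show (n + 1) % 2 = 0 by omega]
        simp only [if_true, one_ne_zero, if_false] at ih ⊢
        rw [ih] at h1
        revert h1; cases a 0 <;> cases a (n + 1) <;> simp
  rw [key i, key j, hij]

/-- one desubstitution step on the boolean level -/
theorem step_bool (t : ℕ → Bool) (K : ℕ) (hK : 63 ≤ K) (hocc : ¬ Occ (Y t) (2 * K)) :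
    ∃ s, (∀ n, t (s + 2 * n) ≠ t (s + 2 * (n + 1))) ∧ ¬ Occ (Y (fun n => t (s + 2 * n + 1))) K := by
  obtain ⟨s, hs⟩ := structure_thm (Y t) (fun h => hocc (h.mono (by omega)))
  have halt : ∀ n, t (s + 2 * n) ≠ t (s + 2 * (n + 1)) := by
    intro n h
    refine (hs n).1 ?_
    rw [Y_eq_iff]
    refine ⟨by omega, ?_⟩
    rw [h]; congr 1
  refine ⟨s, halt, fun ho => hocc (Occ.double (s := s) ?_ ho)⟩
  intro i j hij
  rw [Y_eq_iff] at hij
  rw [Y_eq_iff, Y_eq_iff]
  refine ⟨⟨by omega, ?_⟩, by omega, hij.2⟩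
  exact alt_bool (fun n => t (s + 2 * n)) halt i j hij.1

/-- discrepancy of a boolean sequence -/
def D (t : ℕ → Bool) (N : ℕ) : ℤ := ∑ n ∈ Finset.range N, (if t n then 1 else -1)

theorem D_succ (t : ℕ → Bool) (N : ℕ) : D t (N + 1) = D t N + (if t N then 1 else -1) := by
  unfold D; rw [Finset.sum_range_succ]

theorem abs_D_succ (t : ℕ → Bool) (N : ℕ) : |D t (N + 1)| ≤ |D t N| + 1 := by
  rw [D_succ]
  refine (abs_add_le _ _).trans ?_
  split <;> simp

theorem abs_D_le (t : ℕ → Bool) (N : ℕ) : |D t N| ≤ N := by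
  induction N with
  | zero => simp [D]
  | succ N ih =>
    have := abs_D_succ t N
    push_cast
    omega

theorem abs_D_alt (a : ℕ → Bool) (h : ∀ n, a n ≠ a (n + 1)) (N : ℕ) : |D a N| ≤ 1 := by
  have key : ∀ M, D a (2 * M) = 0 := by
    intro M
    induction M with
    | zero => simp [D]
    | succ M ih =>
      rw [show 2 * (M + 1) = 2 * M + 1 + 1 by ring, D_succ, D_succ, ih]
      have := h (2 * M)
      revert this
      cases a (2 * M) <;> cases a (2 * M + 1) <;> simp
  rcases Nat.even_or_odd' N with ⟨M, hM | hM⟩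
  · rw [hM, key]; simp
  · rw [hM]
    have := abs_D_succ a (2 * M)
    rw [key] at this
    simpa using this

theorem D_split (t : ℕ → Bool) (s M : ℕ) :
    D t (s + 2 * M) = D t s + D (fun n => t (s + 2 * n)) M + D (fun n => t (s + 2 * n + 1)) M := by
  induction M with
  | zero => simp [D]
  | succ M ih =>
    rw [show s + 2 * (M + 1) = s + 2 * M + 1 + 1 by ring, D_succ, D_succ, ih, D_succ, D_succ]
    ring

theorem disc (m : ℕ) : ∀ t : ℕ → Bool, ¬ Occ (Y t) (63 * 2 ^ m) →
    ∃ C : ℝ, ∀ N : ℕ, |(D t N : ℝ)| ≤ N / 2 ^ m + C := by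
  induction m with
  | zero =>
    intro t _
    refine ⟨0, fun N => ?_⟩
    have := abs_D_le t N
    have h2 : (|(D t N)| : ℝ) ≤ (N : ℝ) := by exact_mod_cast this
    simpa using h2
  | succ m ih =>
    intro t hocc
    obtain ⟨s, halt, hocc'⟩ := step_bool t (63 * 2 ^ m) (by
      have : 1 ≤ 2 ^ m := Nat.one_le_two_pow
      omega) (by rw [show 2 * (63 * 2 ^ m) = 63 * 2 ^ (m + 1) by ring]; exact hocc)
    obtain ⟨C, hC⟩ := ih _ hocc'
    have hC0 : 0 ≤ C := by
      have := (abs_nonneg _).trans (hC 0)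
      simpa using this
    refine ⟨s + 2 + C, fun N => ?_⟩
    by_cases hN : N < s
    · have h1 : (|(D t N)| : ℝ) ≤ (N : ℝ) := by exact_mod_cast abs_D_le t N
      have h2 : (N : ℝ) ≤ s := by exact_mod_cast hN.le
      have h3 : (0 : ℝ) ≤ N / 2 ^ (m + 1) := by positivity
      linarith
    · have hM : ∃ M, N = s + 2 * M ∨ N = s + 2 * M + 1 := ⟨(N - s) / 2, by omega⟩
      obtain ⟨M, hM⟩ := hM
      have h1 : (|(D t (s + 2 * M))| : ℝ) ≤ s + 1 + (M / 2 ^ m + C) := by
        have e := D_split t s M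
        have e' : (D t (s + 2 * M) : ℝ) = (D t s : ℝ) + (D (fun n => t (s + 2 * n)) M : ℝ)
            + (D (fun n => t (s + 2 * n + 1)) M : ℝ) := by exact_mod_cast e
        have a1 : (|(D t s)| : ℝ) ≤ (s : ℝ) := by exact_mod_cast abs_D_le t s
        have a2 : (|(D (fun n => t (s + 2 * n)) M)| : ℝ) ≤ 1 := by
          exact_mod_cast abs_D_alt (fun n => t (s + 2 * n)) halt M
        have a3 := hC M
        rw [e']
        refine (abs_add_le _ _).trans ?_
        have := abs_add_le (D t s : ℝ) (D (fun n => t (s + 2 * n)) M : ℝ)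
        linarith
      have h2 : (|(D t N)| : ℝ) ≤ (|(D t (s + 2 * M))| : ℝ) + 1 := by
        rcases hM with hM | hM
        · rw [hM]; linarith
        · rw [hM]; exact_mod_cast abs_D_succ t (s + 2 * M)
      have h3 : (M : ℝ) / 2 ^ m ≤ N / 2 ^ (m + 1) := by
        have : (2 * M : ℝ) ≤ N := by
          have : 2 * M ≤ N := by omega
          exact_mod_cast this
        rw [pow_succ, div_le_div_iff₀ (by positivity) (by positivity)]
        have h2m : (0:ℝ) < 2 ^ m := by positivity
        nlinarith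
      linarith

end BMT26
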