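import Mathlib

/-!
# Finite certificates for words avoiding the Baker–McNulty–Taylor formula

`Occ y K`: the infinite word `y` contains `AB`, `BC`, `CA`, `BA`, `AC` as factors, for some nonempty words
`A`, `B`, `C` of length at most `K`.
`chk` checks a search tree showing that every window of `y` of length `9` is half alternating (`PC`),
unless `Occ y 63`.
-/

namespace BMT26

/-- `AB`, `BC`, `CA`, `BA`, `AC` all occur in `y`, with `A`, `B`, `C` nonempty of length at most `K`:
`AB` occurs at `p1`, `BC` at `p2`, `CA` at `p3`, `BA` at `p4`, `AC` at `p5`. -/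
def Occ {α : Type*} (y : ℕ → α) (K : ℕ) : Prop :=
  ∃ la lb lc p1 p2 p3 p4 p5 : ℕ, 0 < la ∧ 0 < lb ∧ 0 < lc ∧ la ≤ K ∧ lb ≤ K ∧ lc ≤ K ∧
    (∀ t < lb, y (p2 + t) = y (p1 + la + t)) ∧
    (∀ t < lc, y (p3 + t) = y (p2 + lb + t)) ∧
    (∀ t < la, y (p3 + lc + t) = y (p1 + t)) ∧
    (∀ t < lb, y (p4 + t) = y (p1 + la + t)) ∧
    (∀ t < la, y (p4 + lb + t) = y (p1 + t)) ∧
    (∀ t < la, y (p5 + t) = y (p1 + t)) ∧
    (∀ t < lc, y (p5 + la + t) = y (p2 + lb + t))

/-- window of length 9 at `p`: the positions of parity `c` (relative to `p`) alternate between two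
letters which do not occur at the other positions. -/
def PC {α : Type*} (y : ℕ → α) (p c : ℕ) : Prop :=
  ∀ i < 9, (i % 2 = c → (i + 2 < 9 → y (p + i) ≠ y (p + i + 2)) ∧ (i + 4 < 9 → y (p + i) = y (p + i + 4))) ∧
    (i % 2 ≠ c → y (p + i) ≠ y (p + c) ∧ y (p + i) ≠ y (p + c + 2))

inductive T where
  | ok : T
  | leaf : Nat → T
  | R : T → T → T → T → T
  | L : T → T → T → T → T

/-- evaluate the argument before calling the continuation (kernel evaluation trick) -/
def force {β : Type} (n : Nat) (f : Nat → β) : β :=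
  match n with
  | 0 => f 0
  | Nat.succ k => f (Nat.succ k)

theorem force_eq {β : Type} (n : Nat) (f : Nat → β) : force n f = f n := by
  cases n <;> rfl

/-- slice of length `l` at position `p` of the word coded (base 4, least significant first) by `w` -/
def sl (w p l : Nat) : Nat := Nat.mod (Nat.div w (Nat.pow 4 p)) (Nat.pow 4 l)

def dg (w i : Nat) : Nat := Nat.mod (Nat.div w (Nat.pow 4 i)) 4

def cert2 (w n la lb lc p1 p2 p3 p4 p5 : Nat) : Bool :=
  and (Nat.ble 1 la) (and (Nat.ble 1 lb) (and (Nat.ble 1 lc)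
  (and (Nat.ble (Nat.add p1 (Nat.add la lb)) n)
  (and (Nat.ble (Nat.add p2 (Nat.add lb lc)) n)
  (and (Nat.ble (Nat.add p3 (Nat.add lc la)) n)
  (and (Nat.ble (Nat.add p4 (Nat.add lb la)) n)
  (and (Nat.ble (Nat.add p5 (Nat.add la lc)) n)
  (and (Nat.beq (sl w p2 lb) (sl w (Nat.add p1 la) lb))
  (and (Nat.beq (sl w p3 lc) (sl w (Nat.add p2 lb) lc))
  (and (Nat.beq (sl w (Nat.add p3 lc) la) (sl w p1 la))
  (and (Nat.beq (sl w p4 lb) (sl w (Nat.add p1 la) lb))
  (and (Nat.beq (sl w (Nat.add p4 lb) la) (sl w p1 la))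
  (and (Nat.beq (sl w p5 la) (sl w p1 la))
  (Nat.beq (sl w (Nat.add p5 la) lc) (sl w (Nat.add p2 lb) lc)))))))))))))))

def cert (w n c : Nat) : Bool :=
  cert2 w n (Nat.mod c 64) (Nat.mod (Nat.div c 64) 64) (Nat.mod (Nat.div c 4096) 64)
    (Nat.mod (Nat.div c 262144) 64) (Nat.mod (Nat.div c 16777216) 64)
    (Nat.mod (Nat.div c 1073741824) 64) (Nat.mod (Nat.div c 68719476736) 64)
    (Nat.mod (Nat.div c 4398046511104) 64)

def pcw (w c : Nat) : Bool :=
  (List.range 9).all fun i =>
    if i % 2 = c then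
      (if i + 2 < 9 then !(Nat.beq (dg w i) (dg w (i+2))) else true) &&
      (if i + 4 < 9 then Nat.beq (dg w i) (dg w (i+4)) else true)
    else !(Nat.beq (dg w i) (dg w c)) && !(Nat.beq (dg w i) (dg w (c+2)))

def chk : T → Nat → Nat → Nat → Bool
  | .ok, w, n, m => and (Nat.beq m 40) (and (Nat.beq n 9) (or (pcw w 0) (pcw w 1)))
  | .leaf c, w, n, _ => cert w n c
  | .R a b c d, w, n, m =>
      force (Nat.pow 4 n) fun q => force (Nat.succ n) fun n' =>
        and (chk a w n' m) (and (force (Nat.add w q) fun w' => chk b w' n' m)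
          (and (force (Nat.add w (Nat.mul 2 q)) fun w' => chk c w' n' m)
            (force (Nat.add w (Nat.mul 3 q)) fun w' => chk d w' n' m)))
  | .L a b c d, w, n, m =>
      match m with
      | 0 => false
      | Nat.succ m' => force (Nat.succ n) fun n' =>
        and (force (Nat.mul 4 w) fun w' => chk a w' n' m')
          (and (force (Nat.add 1 (Nat.mul 4 w)) fun w' => chk b w' n' m')
            (and (force (Nat.add 2 (Nat.mul 4 w)) fun w' => chk c w' n' m')
              (force (Nat.add 3 (Nat.mul 4 w)) fun w' => chk d w' n' m')))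

theorem dg_sl (w p l t : ℕ) (ht : t < l) : dg w (p + t) = dg (sl w p l) t := by
  unfold dg sl
  change w / 4 ^ (p + t) % 4 = w / 4 ^ p % 4 ^ l / 4 ^ t % 4
  have h1 : 4 ^ l = 4 ^ t * 4 ^ (l - t) := by rw [← pow_add]; congr 1; omega
  rw [h1, Nat.mod_mul_right_div_self, Nat.mod_mod_of_dvd, pow_add, Nat.div_div_eq_div_mul]
  exact dvd_pow_self 4 (by omega)

theorem sl_eq {w p q l : ℕ} (h : sl w p l = sl w q l) (t : ℕ) (ht : t < l) :
    dg w (p + t) = dg w (q + t) := by
  rw [dg_sl w p l t ht, dg_sl w q l t ht, h]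

theorem cert2_sound {y : ℕ → ℕ} {p w n la lb lc p1 p2 p3 p4 p5 : ℕ}
    (h : cert2 w n la lb lc p1 p2 p3 p4 p5 = true) (hw : ∀ i < n, y (p + i) = dg w i)
    {K : ℕ} (ha : la ≤ K) (hb : lb ≤ K) (hc : lc ≤ K) : Occ y K := by
  unfold cert2 at h
  simp only [Bool.and_eq_true, Nat.ble_eq] at h
  obtain ⟨h1, h2, h3, h4, h5, h6, h7, h8, e1, e2, e3, e4, e5, e6, e7⟩ := h
  replace e1 := Nat.eq_of_beq_eq_true e1
  replace e2 := Nat.eq_of_beq_eq_true e2
  replace e3 := Nat.eq_of_beq_eq_true e3
  replace e4 := Nat.eq_of_beq_eq_true e4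
  replace e5 := Nat.eq_of_beq_eq_true e5
  replace e6 := Nat.eq_of_beq_eq_true e6
  replace e7 := Nat.eq_of_beq_eq_true e7
  have n1 : p1 + (la + lb) ≤ n := h4
  have n2 : p2 + (lb + lc) ≤ n := h5
  have n3 : p3 + (lc + la) ≤ n := h6
  have n4 : p4 + (lb + la) ≤ n := h7
  have n5 : p5 + (la + lc) ≤ n := h8
  have key : ∀ a b l : ℕ, sl w a l = sl w b l → a + l ≤ n → b + l ≤ n →
      ∀ t < l, y (p + a + t) = y (p + b + t) := by
    intro a b l h hn hn' t ht
    rw [show p + a + t = p + (a + t) by ring, show p + b + t = p + (b + t) by ring,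
      hw _ (by omega), hw _ (by omega)]
    exact sl_eq h t ht
  refine ⟨la, lb, lc, p + p1, p + p2, p + p3, p + p4, p + p5, h1, h2, h3, ha, hb, hc, ?_, ?_, ?_, ?_,
    ?_, ?_, ?_⟩
  · intro t ht
    have := key p2 (p1 + la) lb e1 (by omega) (by omega) t ht
    rw [this]; congr 1; omega
  · intro t ht
    have := key p3 (p2 + lb) lc e2 (by omega) (by omega) t ht
    rw [this]; congr 1; omega
  · intro t ht
    have := key (p3 + lc) p1 la e3 (by omega) (by omega) t ht
    rw [← this]; congr 1; omega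
  · intro t ht
    have := key p4 (p1 + la) lb e4 (by omega) (by omega) t ht
    rw [this]; congr 1; omega
  · intro t ht
    have := key (p4 + lb) p1 la e5 (by omega) (by omega) t ht
    rw [← this]; congr 1; omega
  · intro t ht
    exact key p5 p1 la e6 (by omega) (by omega) t ht
  · intro t ht
    have := key (p5 + la) (p2 + lb) lc e7 (by omega) (by omega) t ht
    rw [show p + p5 + la + t = p + (p5 + la) + t by ring, this]; congr 1; omega

theorem cert_sound {y : ℕ → ℕ} {p w n c : ℕ}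
    (h : cert w n c = true) (hw : ∀ i < n, y (p + i) = dg w i) : Occ y 63 := by
  unfold cert at h
  refine cert2_sound h hw ?_ ?_ ?_
  · have : c % 64 < 64 := Nat.mod_lt _ (by norm_num)
    exact Nat.le_of_lt_succ this
  · have : c / 64 % 64 < 64 := Nat.mod_lt _ (by norm_num)
    exact Nat.le_of_lt_succ this
  · have : c / 4096 % 64 < 64 := Nat.mod_lt _ (by norm_num)
    exact Nat.le_of_lt_succ this

theorem pcw_sound {y : ℕ → ℕ} {p w c : ℕ} (hc : c < 2)
    (h : pcw w c = true) (hw : ∀ i < 9, y (p + i) = dg w i) : PC y p c := by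
  unfold pcw at h
  rw [List.all_eq_true] at h
  intro i hi
  have h1 := h i (List.mem_range.2 hi)
  constructor
  · intro hic
    rw [if_pos hic] at h1
    rw [Bool.and_eq_true] at h1
    obtain ⟨h2, h3⟩ := h1
    constructor
    · intro h9
      rw [if_pos h9] at h2
      rw [hw i hi, show p + i + 2 = p + (i + 2) by ring, hw _ h9]
      intro he
      simp [he] at h2
    · intro h9
      rw [if_pos h9] at h3
      rw [hw i hi, show p + i + 4 = p + (i + 4) by ring, hw _ h9]
      simpa using h3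
  · intro hic
    rw [if_neg hic] at h1
    rw [Bool.and_eq_true] at h1
    obtain ⟨h2, h3⟩ := h1
    constructor
    · rw [hw i hi, hw c (by omega)]
      intro he
      simp [he] at h2
    · rw [hw i hi, show p + c + 2 = p + (c + 2) by ring, hw (c+2) (by omega)]
      intro he
      simp [he] at h3

theorem dg_R_lt (w n d i : ℕ) (hi : i < n) : dg (w + d * 4 ^ n) i = dg w i := by
  unfold dg
  change (w + d * 4 ^ n) / 4 ^ i % 4 = w / 4 ^ i % 4
  have h1 : 4 ^ n = 4 ^ i * (4 * 4 ^ (n - i - 1)) := by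
    rw [← pow_succ', ← pow_add]; congr 1; omega
  rw [h1, show w + d * (4 ^ i * (4 * 4 ^ (n - i - 1))) = w + 4 ^ i * (4 * (d * 4 ^ (n-i-1))) by ring,
    Nat.add_mul_div_left _ _ (by positivity), Nat.add_mul_mod_self_left]

theorem dg_R_eq (w n d : ℕ) (hw : w < 4 ^ n) (hd : d < 4) : dg (w + d * 4 ^ n) n = d := by
  unfold dg
  change (w + d * 4 ^ n) / 4 ^ n % 4 = d
  rw [Nat.add_mul_div_right _ _ (by positivity), Nat.div_eq_of_lt hw, zero_add, Nat.mod_eq_of_lt hd]

theorem dg_L_zero (w d : ℕ) (hd : d < 4) : dg (d + 4 * w) 0 = d := by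
  unfold dg
  change (d + 4 * w) / 4 ^ 0 % 4 = d
  omega

theorem dg_L_succ (w d i : ℕ) (hd : d < 4) : dg (d + 4 * w) (i + 1) = dg w i := by
  unfold dg
  change (d + 4 * w) / 4 ^ (i+1) % 4 = w / 4 ^ i % 4
  rw [pow_succ', ← Nat.div_div_eq_div_mul]
  congr 2
  omega

theorem chk_sound (y : ℕ → ℕ) (hy : ∀ i, y i < 4) (p0 : ℕ) (hp0 : 40 ≤ p0) :
    ∀ (t : T) (w n m p : ℕ), chk t w n m = true → w < 4 ^ n → m ≤ 40 → p + 40 = p0 + m →
      (∀ i < n, y (p + i) = dg w i) → (PC y p0 0 ∨ PC y p0 1) ∨ Occ y 63 := by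
  intro t
  induction t with
  | ok =>
    intro w n m p h _ _ hp hw
    simp only [chk, Bool.and_eq_true, Bool.or_eq_true] at h
    obtain ⟨h1, h2, h3⟩ := h
    replace h1 := Nat.eq_of_beq_eq_true h1
    replace h2 := Nat.eq_of_beq_eq_true h2
    subst h1; subst h2
    have hpp : p = p0 := by omega
    subst hpp
    left
    rcases h3 with h3 | h3
    · left; exact pcw_sound (by norm_num) h3 hw
    · right; exact pcw_sound (by norm_num) h3 hw
  | leaf c =>
    intro w n m p h _ _ _ hw
    right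
    exact cert_sound h hw
  | R a b c d iha ihb ihc ihd =>
    intro w n m p h hwn hm hp hw
    simp only [chk, force_eq, Bool.and_eq_true] at h
    obtain ⟨h0, h1, h2, h3⟩ := h
    have hlt : ∀ e < 4, w + e * 4 ^ n < 4 ^ (n + 1) := by
      intro e he
      rw [pow_succ]
      nlinarith [Nat.pos_of_ne_zero (pow_ne_zero n (by norm_num : (4:ℕ) ≠ 0))]
    have hext : ∀ e < 4, y (p + n) = e → ∀ i < n + 1, y (p + i) = dg (w + e * 4 ^ n) i := by
      intro e he hye i hi
      rcases Nat.lt_succ_iff_lt_or_eq.1 hi with h | h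
      · rw [hw i h, dg_R_lt _ _ _ _ h]
      · subst h; rw [hye, dg_R_eq _ _ _ hwn he]
    have h4 := hy (p + n)
    have hc : y (p + n) = 0 ∨ y (p + n) = 1 ∨ y (p + n) = 2 ∨ y (p + n) = 3 := by omega
    rcases hc with hc | hc | hc | hc
    · refine iha w (n+1) m p h0 (by have := hlt 0 (by norm_num); simpa using this) hm hp ?_
      have := hext 0 (by norm_num) hc
      simpa using this
    · refine ihb (w + 4 ^ n) (n+1) m p h1 (by have := hlt 1 (by norm_num); simpa using this) hm hp ?_
      have := hext 1 (by norm_num) hc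
      simpa using this
    · exact ihc (w + 2 * 4 ^ n) (n+1) m p h2 (hlt 2 (by norm_num)) hm hp (hext 2 (by norm_num) hc)
    · exact ihd (w + 3 * 4 ^ n) (n+1) m p h3 (hlt 3 (by norm_num)) hm hp (hext 3 (by norm_num) hc)
  | L a b c d iha ihb ihc ihd =>
    intro w n m p h hwn hm hp hw
    cases m with
    | zero => simp [chk] at h
    | succ m =>
    simp only [chk, force_eq, Bool.and_eq_true] at h
    obtain ⟨h0, h1, h2, h3⟩ := h
    have hp1 : 1 ≤ p := by omega
    have hlt : ∀ e < 4, e + 4 * w < 4 ^ (n + 1) := by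
      intro e he
      rw [pow_succ]
      omega
    have hext : ∀ e < 4, y (p - 1) = e → ∀ i < n + 1, y (p - 1 + i) = dg (e + 4 * w) i := by
      intro e he hye i hi
      cases i with
      | zero => rw [dg_L_zero _ _ he]; simpa using hye
      | succ i => 
        rw [dg_L_succ _ _ _ he, show p - 1 + (i + 1) = p + i by omega]
        exact hw i (by omega)
    have h4 := hy (p - 1)
    have hc : y (p - 1) = 0 ∨ y (p - 1) = 1 ∨ y (p - 1) = 2 ∨ y (p - 1) = 3 := by omega
    rcases hc with hc | hc | hc | hc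
    · refine iha (4 * w) (n+1) m (p-1) h0 (by have := hlt 0 (by norm_num); simpa using this) (by omega)
        (by omega) ?_
      have := hext 0 (by norm_num) hc
      simpa using this
    · exact ihb (1 + 4 * w) (n+1) m (p-1) h1 (hlt 1 (by norm_num)) (by omega) (by omega)
        (hext 1 (by norm_num) hc)
    · exact ihc (2 + 4 * w) (n+1) m (p-1) h2 (hlt 2 (by norm_num)) (by omega) (by omega)
        (hext 2 (by norm_num) hc)
    · exact ihd (3 + 4 * w) (n+1) m (p-1) h3 (hlt 3 (by norm_num)) (by omega) (by omega)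
        (hext 3 (by norm_num) hc)

end BMT26
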