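import Pool.Agent.H26.BMT.Compact

/-!
# An infinite word over four letters avoiding the pattern (paperfolding type)
-/

namespace BMT26

open BMTDensity

/-- `pf n` for `n = 2^v u`, `u` odd: whether `u ≡ 3 (mod 4)` -/
def pf (n : ℕ) : Bool :=
  if h : n = 0 then false else if n % 2 = 1 then decide (n % 4 = 3) else pf (n / 2)
termination_by n
decreasing_by omega

theorem pf_odd (r : ℕ) : pf (2 * r + 1) = decide (r % 2 = 1) := by
  unfold pf
  rw [dif_neg (by omega), if_pos (by omega)]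
  congr 1
  apply propext
  omega

theorem pf_even (n : ℕ) (hn : 0 < n) : pf (2 * n) = pf n := by
  conv_lhs => unfold pf
  rw [dif_neg (by omega), if_neg (by omega)]
  congr 1; omega

theorem pf_pow (k r : ℕ) : pf (2 ^ k * (2 * r + 1)) = decide (r % 2 = 1) := by
  induction k with
  | zero => rw [pow_zero, one_mul, pf_odd]
  | succ k ih =>
    rw [pow_succ', mul_assoc, pf_even _ (by positivity), ih]

/-- the word `b` -/
def bw (n : ℕ) : Fin 4 := Y (fun n => pf (n + 1)) n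

theorem bw_eq (i j : ℕ) : bw i = bw j ↔ (i % 2 = j % 2 ∧ pf (i + 1) = pf (j + 1)) := by
  unfold bw; rw [Y_eq_iff]

/-- equal factors of length `2^k` occur at positions congruent modulo `2^(k+1)` -/
theorem bw_pos (k : ℕ) : ∀ i j : ℕ, (∀ t < 2 ^ k, bw (i + t) = bw (j + t)) →
    i % 2 ^ (k + 1) = j % 2 ^ (k + 1) := by
  induction k with
  | zero =>
    intro i j h
    have := h 0 (by norm_num)
    rw [bw_eq] at this
    simpa using this.1
  | succ k ih =>
    intro i j h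
    have hpow : 2 ^ (k + 1) = 2 * 2 ^ k := by rw [pow_succ]; ring
    have hpow2 : 2 ^ (k + 1 + 1) = 2 * 2 ^ (k + 1) := by rw [pow_succ]; ring
    have hpos : 0 < 2 ^ k := by positivity
    have h1 := ih i j (fun t ht => h t (by omega))
    -- find `t` with `i + t + 1 ≡ 2^k (mod 2^(k+1))`
    obtain ⟨t, ht, r, hr⟩ : ∃ t < 2 ^ (k + 1), ∃ r, i + t + 1 = 2 ^ k * (2 * r + 1) := by
      by_cases hc : (i + 1) % 2 ^ (k + 1) ≤ 2 ^ k
      · refine ⟨2 ^ k - (i + 1) % 2 ^ (k + 1), by omega, (i + 1) / 2 ^ (k + 1), ?_⟩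
        have := Nat.div_add_mod (i + 1) (2 ^ (k + 1))
        have e : 2 ^ k * (2 * ((i + 1) / 2 ^ (k + 1)) + 1) = 2 ^ (k + 1) * ((i + 1) / 2 ^ (k + 1)) + 2 ^ k := by
          rw [hpow]; ring
        rw [e]; omega
      · refine ⟨2 ^ k + 2 ^ (k + 1) - (i + 1) % 2 ^ (k + 1), by omega, (i + 1) / 2 ^ (k + 1) + 1, ?_⟩
        have := Nat.div_add_mod (i + 1) (2 ^ (k + 1))
        have hlt : (i + 1) % 2 ^ (k + 1) < 2 ^ (k + 1) := Nat.mod_lt _ (by positivity)
        have e : 2 ^ k * (2 * ((i + 1) / 2 ^ (k + 1) + 1) + 1)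
            = 2 ^ (k + 1) * ((i + 1) / 2 ^ (k + 1)) + 2 ^ (k + 1) + 2 ^ k := by
          rw [hpow]; ring
        rw [e]; omega
    -- same for `j`
    have hmod : (i + t + 1) % 2 ^ (k + 1) = (j + t + 1) % 2 ^ (k + 1) := by
      have : i + (t + 1) ≡ j + (t + 1) [MOD 2 ^ (k + 1)] := Nat.ModEq.add_right _ h1
      rw [Nat.add_assoc i, Nat.add_assoc j]
      exact this
    obtain ⟨r', hr'⟩ : ∃ r', j + t + 1 = 2 ^ k * (2 * r' + 1) := by
      refine ⟨(j + t + 1) / 2 ^ (k + 1), ?_⟩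
      have e1 : (i + t + 1) % 2 ^ (k + 1) = 2 ^ k := by
        rw [hr, show 2 ^ k * (2 * r + 1) = 2 ^ k + 2 ^ (k + 1) * r by rw [hpow]; ring,
          Nat.add_mul_mod_self_left]
        exact Nat.mod_eq_of_lt (by omega)
      rw [e1] at hmod
      have := Nat.div_add_mod (j + t + 1) (2 ^ (k + 1))
      have e : 2 ^ k * (2 * ((j + t + 1) / 2 ^ (k + 1)) + 1)
          = 2 ^ (k + 1) * ((j + t + 1) / 2 ^ (k + 1)) + 2 ^ k := by
        rw [hpow]; ring
      rw [e]; omega
    have h2 := h t ht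
    rw [bw_eq] at h2
    have h3 := h2.2
    rw [hr, hr', pf_pow, pf_pow] at h3
    have h4 : r % 2 = r' % 2 := by
      rcases Nat.mod_two_eq_zero_or_one r with a | a <;> rcases Nat.mod_two_eq_zero_or_one r' with b | b <;>
        simp [a, b] at h3 ⊢
    have h5 : i + (t + 1) ≡ j + (t + 1) [MOD 2 ^ (k + 1 + 1)] := by
      have e1 : i + (t + 1) = 2 ^ k + 2 ^ (k + 1) * r := by
        rw [← Nat.add_assoc, hr, hpow]; ring
      have e2 : j + (t + 1) = 2 ^ k + 2 ^ (k + 1) * r' := by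
        rw [← Nat.add_assoc, hr', hpow]; ring
      rw [e1, e2, show 2 ^ (k + 1 + 1) = 2 ^ (k + 1) * 2 by rw [pow_succ]]
      exact Nat.ModEq.add_left _ (Nat.ModEq.mul_left' _ h4)
    exact Nat.ModEq.add_right_cancel' _ h5

theorem bw_not_occ (K : ℕ) : ¬ Occ bw K := by
  rintro ⟨la, lb, lc, p1, p2, p3, p4, p5, h1, h2, h3, _, _, _, e1, e2, e3, e4, e5, e6, e7⟩
  have key : ∀ k, 2 ^ k ∣ la ∧ 2 ^ k ∣ lb ∧ 2 ^ k ∣ lc := by
    intro k
    induction k with
    | zero => simp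
    | succ k ih =>
      obtain ⟨ha, hb, hc⟩ := ih
      have la' := Nat.le_of_dvd h1 ha
      have lb' := Nat.le_of_dvd h2 hb
      have lc' := Nat.le_of_dvd h3 hc
      have m1 : p2 ≡ p1 + la [MOD 2 ^ (k + 1)] := bw_pos k _ _ (fun t ht => e1 t (by omega))
      have m2 : p3 ≡ p2 + lb [MOD 2 ^ (k + 1)] := bw_pos k _ _ (fun t ht => e2 t (by omega))
      have m3 : p3 + lc ≡ p1 [MOD 2 ^ (k + 1)] := bw_pos k _ _ (fun t ht => e3 t (by omega))
      have m4 : p4 ≡ p1 + la [MOD 2 ^ (k + 1)] := bw_pos k _ _ (fun t ht => e4 t (by omega))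
      have m5 : p4 + lb ≡ p1 [MOD 2 ^ (k + 1)] := bw_pos k _ _ (fun t ht => e5 t (by omega))
      have m6 : p5 ≡ p1 [MOD 2 ^ (k + 1)] := bw_pos k _ _ (fun t ht => e6 t (by omega))
      have m7 : p5 + la ≡ p2 + lb [MOD 2 ^ (k + 1)] := bw_pos k _ _ (fun t ht => e7 t (by omega))
      -- `p1 + la + lb ≡ p1`
      have s1 : p1 + la + lb ≡ p1 [MOD 2 ^ (k + 1)] := (m4.symm.add_right lb).trans m5
      -- `p2 + lb ≡ p1`
      have s2 : p2 + lb ≡ p1 [MOD 2 ^ (k + 1)] := (m1.add_right lb).trans s1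
      have s3 : p1 + lc ≡ p1 [MOD 2 ^ (k + 1)] := ((m2.trans s2).symm.add_right lc).trans m3
      have s4 : p1 + la ≡ p1 [MOD 2 ^ (k + 1)] := ((m6.symm.add_right la).trans m7).trans s2
      have s5 : p1 + lb ≡ p1 [MOD 2 ^ (k + 1)] := (s4.symm.add_right lb).trans s1
      have fin : ∀ l, p1 + l ≡ p1 [MOD 2 ^ (k + 1)] → 2 ^ (k + 1) ∣ l := by
        intro l hl
        have : p1 + l ≡ p1 + 0 [MOD 2 ^ (k + 1)] := hl
        exact (Nat.modEq_zero_iff_dvd).1 (Nat.ModEq.add_left_cancel' _ this)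
      exact ⟨fin _ s4, fin _ s5, fin _ s3⟩
  have := Nat.le_of_dvd h1 (key la).1
  exact absurd this (not_le.2 Nat.lt_two_pow_self)

/-- infix of a segment gives positions -/
theorem infix_seg {x : ℕ → Fin 4} {n : ℕ} {u : List (Fin 4)} (h : u <:+: seg x 0 n) :
    ∃ p, seg x p u.length = u := by
  obtain ⟨s, t, hst⟩ := h
  refine ⟨s.length, ?_⟩
  have hn : n = s.length + (u.length + t.length) := by
    have := congrArg List.length hst
    rw [seg_length] at this
    simp at this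
    omega
  rw [hn, seg_add, seg_add, List.append_assoc] at hst
  have h1 := List.append_inj hst (by rw [seg_length])
  have h2 := List.append_inj h1.2 (by rw [seg_length])
  rw [Nat.zero_add] at h2
  exact h2.1.symm

theorem seg_split {x : ℕ → Fin 4} {p : ℕ} {u v : List (Fin 4)}
    (h : seg x p (u ++ v).length = u ++ v) :
    seg x p u.length = u ∧ seg x (p + u.length) v.length = v := by
  rw [List.length_append, seg_add] at h
  exact List.append_inj h (by rw [seg_length])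

theorem seg_eq_iff {x : ℕ → Fin 4} {p q l : ℕ} (h : seg x p l = seg x q l) :
    ∀ t < l, x (p + t) = x (q + t) := by
  intro t ht
  unfold seg at h
  have := congrArg (fun L : List (Fin 4) => L[t]?) h
  simpa [ht] using this

theorem avoid_of_not_occ (x : ℕ → Fin 4) (h : ∀ K, ¬ Occ x K) (n : ℕ) : seg x 0 n ∈ F n := by
  refine ⟨seg_length _ _ _, ?_⟩
  rintro ⟨f, hf, hinf⟩
  simp only [pat, List.flatMap_cons, List.flatMap_nil, List.append_nil] at hinf
  -- the five factors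
  have i1 : (f .a ++ f .b) <:+: seg x 0 n := by
    refine List.IsInfix.trans ?_ hinf
    exact ⟨[], f .X ++ (f .b ++ (f .c ++ (f .Y ++ (f .c ++ (f .a ++ (f .Z ++ (f .b ++ (f .a ++ (f .T ++
      (f .a ++ f .c)))))))))), by simp [List.append_assoc]⟩
  have i2 : (f .b ++ f .c) <:+: seg x 0 n := by
    refine List.IsInfix.trans ?_ hinf
    exact ⟨f .a ++ (f .b ++ f .X), f .Y ++ (f .c ++ (f .a ++ (f .Z ++ (f .b ++ (f .a ++ (f .T ++
      (f .a ++ f .c))))))), by simp [List.append_assoc]⟩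
  have i3 : (f .c ++ f .a) <:+: seg x 0 n := by
    refine List.IsInfix.trans ?_ hinf
    exact ⟨f .a ++ (f .b ++ (f .X ++ (f .b ++ (f .c ++ f .Y)))), f .Z ++ (f .b ++ (f .a ++ (f .T ++
      (f .a ++ f .c)))), by simp [List.append_assoc]⟩
  have i4 : (f .b ++ f .a) <:+: seg x 0 n := by
    refine List.IsInfix.trans ?_ hinf
    exact ⟨f .a ++ (f .b ++ (f .X ++ (f .b ++ (f .c ++ (f .Y ++ (f .c ++ (f .a ++ f .Z))))))), f .T ++
      (f .a ++ f .c), by simp [List.append_assoc]⟩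
  have i5 : (f .a ++ f .c) <:+: seg x 0 n := by
    refine List.IsInfix.trans ?_ hinf
    exact ⟨f .a ++ (f .b ++ (f .X ++ (f .b ++ (f .c ++ (f .Y ++ (f .c ++ (f .a ++ (f .Z ++ (f .b ++
      (f .a ++ f .T)))))))))), [], by simp [List.append_assoc]⟩
  obtain ⟨p1, j1⟩ := infix_seg i1
  obtain ⟨p2, j2⟩ := infix_seg i2
  obtain ⟨p3, j3⟩ := infix_seg i3
  obtain ⟨p4, j4⟩ := infix_seg i4
  obtain ⟨p5, j5⟩ := infix_seg i5
  obtain ⟨a1, b1⟩ := seg_split j1
  obtain ⟨b2, c2⟩ := seg_split j2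
  obtain ⟨c3, a3⟩ := seg_split j3
  obtain ⟨b4, a4⟩ := seg_split j4
  obtain ⟨a5, c5⟩ := seg_split j5
  have pos : ∀ v, 0 < (f v).length := fun v => List.length_pos_of_ne_nil (hf v)
  refine h ((f .a).length + (f .b).length + (f .c).length) ⟨(f .a).length, (f .b).length, (f .c).length,
    p1, p2, p3, p4, p5, pos _, pos _, pos _, by omega, by omega, by omega, ?_, ?_, ?_, ?_, ?_, ?_, ?_⟩
  · exact seg_eq_iff (b2.trans b1.symm)
  · exact seg_eq_iff (c3.trans c2.symm)
  · exact seg_eq_iff (a3.trans a1.symm)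
  · exact seg_eq_iff (b4.trans b1.symm)
  · exact seg_eq_iff (a4.trans a1.symm)
  · exact seg_eq_iff (a5.trans a1.symm)
  · exact seg_eq_iff (c5.trans c2.symm)

theorem sum_count (w : List (Fin 4)) : ∑ a : Fin 4, w.count a = w.length := by
  induction w with
  | nil => simp
  | cons b w ih =>
    simp only [List.count_cons, Finset.sum_add_distrib, ih, List.length_cons]
    congr 1
    simp

theorem exists_small (k : ℕ) : ∃ w ∈ F k, 4 * w.count 3 ≤ k := by
  obtain ⟨a, ha⟩ : ∃ a : Fin 4, 4 * (seg bw 0 k).count a ≤ k := by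
    by_contra hcon
    push Not at hcon
    have h := sum_count (seg bw 0 k)
    rw [seg_length, Fin.sum_univ_four] at h
    have := hcon 0; have := hcon 1; have := hcon 2; have := hcon 3
    omega
  set σ := Equiv.swap a 3
  have hmap : seg (fun i => σ (bw i)) 0 k = (seg bw 0 k).map σ := by
    unfold seg; rw [List.map_map]; rfl
  refine ⟨seg (fun i => σ (bw i)) 0 k, avoid_of_not_occ _ (fun K ho => bw_not_occ K
    (Occ.of_comp (f := σ) σ.injective ho)) k, ?_⟩
  rw [hmap]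
  have : (3 : Fin 4) = σ a := by simp [σ]
  rw [this, List.count_map_of_injective _ _ σ.injective]
  exact ha

end BMT26
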